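import Pool.Agent.Q225.GH.Stm

/-!
# Project GH (helper225), MP_128e7d_lc: job MAIN

A certificate needs many apices or a large genus: transport the parities of the certificate to the
graph of small genus and apply the core lemma to the copies of `K_{3,3}` that avoid the apices.
-/

set_option autoImplicit false
set_option linter.unusedSectionVars false

namespace Pool.Agent.Q154.GH

open Finset Pool.Agent.TH658.Dg Pool.Agent.Q210.SP Pool.Agent.Q225.GH

section

variable {m p : ℕ} {W V : Type} [Fintype W] [DecidableEq W] [Fintype V] [DecidableEq V]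

open Classical in
/-- the inverse of the injection, where it exists -/
noncomputable def pre {A : Set W} (f : ↥(Aᶜ) → V) (v : V) : Option ↥(Aᶜ) :=
  if h : ∃ a, f a = v then some h.choose else none

theorem pre_apply {A : Set W} {f : ↥(Aᶜ) → V} (hf : Function.Injective f) (a : ↥(Aᶜ)) :
    pre f (f a) = some a := by
  have h : ∃ a', f a' = f a := ⟨a, rfl⟩
  unfold pre
  rw [dif_pos h]
  exact congrArg some (hf h.choose_spec)

theorem pre_some {A : Set W} {f : ↥(Aᶜ) → V} {v : V} {a : ↥(Aᶜ)} (h : pre f v = some a) :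
    f a = v := by
  unfold pre at h
  split_ifs at h with h'
  · cases h
    exact h'.choose_spec

open Classical in
/-- the class of a node -/
noncomputable def cl (P : MQ m → Prop) : Nd m p → Option ({v : MQ m // P v} × (Fin 3 ⊕ Fin 3))
  | Nd.r v x => if h : P v then some (⟨v, h⟩, Sum.inl x) else none
  | Nd.c v y => if h : P v then some (⟨v, h⟩, Sum.inr y) else none
  | _ => none

theorem cl_inl (P : MQ m → Prop) (u : Nd m p) (i : {v : MQ m // P v}) (x : Fin 3) :
    cl P u = some (i, Sum.inl x) ↔ u = Nd.r i.1 x := by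
  constructor
  · intro h
    cases u with
    | q v => simp [cl] at h
    | d e b => simp [cl] at h
    | z i => simp [cl] at h
    | r v x' =>
      simp only [cl] at h
      split_ifs at h with hP
      simp only [Option.some.injEq, Prod.mk.injEq, Sum.inl.injEq] at h
      obtain ⟨rfl, rfl⟩ := h
      rfl
    | c v x' =>
      simp only [cl] at h
      split_ifs at h with hP
      simp at h
  · rintro rfl
    simp only [cl]
    rw [dif_pos i.2]

theorem cl_inr (P : MQ m → Prop) (u : Nd m p) (i : {v : MQ m // P v}) (x : Fin 3) :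
    cl P u = some (i, Sum.inr x) ↔ u = Nd.c i.1 x := by
  constructor
  · intro h
    cases u with
    | q v => simp [cl] at h
    | d e b => simp [cl] at h
    | z i => simp [cl] at h
    | c v x' =>
      simp only [cl] at h
      split_ifs at h with hP
      simp only [Option.some.injEq, Prod.mk.injEq, Sum.inr.injEq] at h
      obtain ⟨rfl, rfl⟩ := h
      rfl
    | r v x' =>
      simp only [cl] at h
      split_ifs at h with hP
      simp at h
  · rintro rfl
    simp only [cl]
    rw [dif_pos i.2]

/-- the class of a vertex of the big graph -/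
noncomputable def cls (P : MQ m → Prop) (φ : W → Nd m p) {A : Set W} (f : ↥(Aᶜ) → V) (v : V) :
    Option ({v : MQ m // P v} × (Fin 3 ⊕ Fin 3)) :=
  match pre f v with
  | some a => cl P (φ a.1)
  | none => none

/-- the transported weights -/
noncomputable def wt (t : W → W → ZMod 2) {A : Set W} (f : ↥(Aᶜ) → V) (v w : V) : ZMod 2 :=
  match pre f v, pre f w with
  | some a, some b => t a.1 b.1
  | _, _ => 0

/-- the transported parities -/
noncomputable def par (S : W → ZMod 2) {A : Set W} (f : ↥(Aᶜ) → V) (v : V) : ZMod 2 :=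
  match pre f v with
  | some a => S a.1
  | none => 0

theorem cls_apply (P : MQ m → Prop) (φ : W → Nd m p) {A : Set W} {f : ↥(Aᶜ) → V}
    (hf : Function.Injective f) (a : ↥(Aᶜ)) : cls P φ f (f a) = cl P (φ a.1) := by
  unfold cls
  rw [pre_apply hf]

theorem wt_apply (t : W → W → ZMod 2) {A : Set W} {f : ↥(Aᶜ) → V}
    (hf : Function.Injective f) (a b : ↥(Aᶜ)) : wt t f (f a) (f b) = t a.1 b.1 := by
  unfold wt
  rw [pre_apply hf, pre_apply hf]

theorem par_apply (S : W → ZMod 2) {A : Set W} {f : ↥(Aᶜ) → V}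
    (hf : Function.Injective f) (a : ↥(Aᶜ)) : par S f (f a) = S a.1 := by
  unfold par
  rw [pre_apply hf]

theorem cls_some (P : MQ m → Prop) (φ : W → Nd m p) {A : Set W} {f : ↥(Aᶜ) → V} {v : V}
    {k : {v : MQ m // P v} × (Fin 3 ⊕ Fin 3)} (h : cls P φ f v = some k) :
    ∃ a : ↥(Aᶜ), f a = v ∧ cl P (φ a.1) = some k := by
  unfold cls at h
  rcases hp : pre f v with _ | a
  · rw [hp] at h
    cases h
  · rw [hp] at h
    exact ⟨a, pre_some hp, h⟩

theorem key (P : MQ m → Prop) (φ : W → Nd m p) {A : Set W} {f : ↥(Aᶜ) → V}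
    (hf : Function.Injective f) (u : Nd m p) (k : {v : MQ m // P v} × (Fin 3 ⊕ Fin 3))
    (hk : ∀ w : Nd m p, cl P w = some k ↔ w = u) (hA : ∀ a, φ a = u → a ∉ A)
    (G : V → ZMod 2) (G' : W → ZMod 2) (hG : ∀ a : ↥(Aᶜ), G (f a) = G' a.1)
    [DecidablePred fun v => cls P φ f v = some k] :
    (∑ v : V with cls P φ f v = some k, G v) = ∑ a : W with φ a = u, G' a := by
  symm
  refine Finset.sum_bij (fun a ha => f ⟨a, hA a (mem_filter.1 ha).2⟩) ?_ ?_ ?_ ?_
  · intro a ha
    have h := (mem_filter.1 ha).2
    rw [mem_filter]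
    refine ⟨mem_univ _, ?_⟩
    rw [cls_apply P φ hf]
    exact (hk _).2 h
  · intro a ha b hb hab
    have := hf hab
    exact congrArg Subtype.val this
  · intro v hv
    have h := (mem_filter.1 hv).2
    obtain ⟨a, ha, hc⟩ := cls_some P φ h
    exact ⟨a.1, mem_filter.2 ⟨mem_univ _, (hk _).1 hc⟩, ha⟩
  · intro a ha
    exact (hG ⟨a, hA a (mem_filter.1 ha).2⟩).symm

end

theorem adj_rc {m p : ℕ} (v : MQ m) (x y : Fin 3) :
    (MB m p).G.Adj (Nd.r v x) (Nd.c v y) := by
  exact Or.inl (by simp [ndRel])

/-- the node of the Margulis graph below a node of a copy of `K_{3,3}` -/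
def below {m p : ℕ} : Nd m p → MQ m
  | Nd.r v _ => v
  | Nd.c v _ => v
  | Nd.q v => v
  | _ => 0

theorem t_MAIN (hcore : S_CORE) (hloc : S_LOC) (hglob : S_GLOB) : S_MAIN := by
  classical
  intro m p _ b W _ _ F A V _ _ H g hg hcont hcert
  obtain ⟨φ, t, hc⟩ := hcert
  obtain ⟨S, hS⟩ := hloc m p b W F φ t hc
  have hgl := hglob m p b W F φ t hc S hS
  obtain ⟨f0⟩ := hcont
  let f : ↥(Aᶜ) → V := fun a => f0.toHom a
  have hf : Function.Injective f := f0.injective'
  let P : MQ m → Prop := fun v => ∀ a ∈ A, ∀ k, φ a ≠ Nd.r v k ∧ φ a ≠ Nd.c v k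
  have hR : Fintype.card {v : MQ m // P v} ≤ 2 * g := by
    refine hcore V H g hg {v : MQ m // P v} (cls P φ f) (wt t f) (par S f) ?_ ?_ ?_ ?_ ?_
    · intro v w
      unfold wt
      rcases pre f v with _ | a <;> rcases pre f w with _ | a'
      · rfl
      · rfl
      · rfl
      · exact hc.symm _ _
    · intro v w hvw
      unfold wt at hvw
      rcases hv : pre f v with _ | a
      · rw [hv] at hvw
        exact absurd rfl hvw
      rcases hw : pre f w with _ | a'
      · rw [hv, hw] at hvw
        exact absurd rfl hvw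
      rw [hv, hw] at hvw
      have h1 : F.Adj a.1 a'.1 := hc.supp _ _ hvw
      have h2 : (F.induce Aᶜ).Adj a a' := h1
      have h3 := f0.toHom.map_adj h2
      rw [← pre_some hv, ← pre_some hw]
      exact h3
    · intro v i x hv y
      obtain ⟨a, rfl, ha⟩ := cls_some P φ hv
      have ha' := (cl_inl P _ _ _).1 ha
      rw [key P φ hf (Nd.c i.1 y) (i, Sum.inr y) (fun w => cl_inr P w i y) (fun a' h' hA =>
        (i.2 a' hA y).2 h') (wt t f (f a)) (t a.1) (fun a' => wt_apply t hf a a'),
        par_apply S hf]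
      refine hS a.1 (Nd.c i.1 y) ?_
      rw [ha']
      exact adj_rc _ _ _
    · intro v i x hv y
      obtain ⟨a, rfl, ha⟩ := cls_some P φ hv
      have ha' := (cl_inr P _ _ _).1 ha
      rw [key P φ hf (Nd.r i.1 y) (i, Sum.inl y) (fun w => cl_inl P w i y) (fun a' h' hA =>
        (i.2 a' hA y).1 h') (wt t f (f a)) (t a.1) (fun a' => wt_apply t hf a a'),
        par_apply S hf]
      refine hS a.1 (Nd.r i.1 y) ?_
      rw [ha']
      exact (adj_rc _ _ _).symm
    · intro i x
      rw [key P φ hf (Nd.r i.1 x) (i, Sum.inl x) (fun w => cl_inl P w i x) (fun a' h' hA =>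
        (i.2 a' hA x).1 h') (par S f) S (fun a' => par_apply S hf a')]
      exact hgl i.1 x
  have hcard : Fintype.card (MQ m) = m ^ 2 := by
    simp [MQ, Fintype.card_prod, ZMod.card, sq]
  have hcompl : Fintype.card {v : MQ m // ¬ P v} ≤ A.ncard := by
    rw [Fintype.card_subtype, Set.ncard_eq_toFinset_card']
    have hsub : (univ.filter fun v : MQ m => ¬ P v) ⊆ A.toFinset.image (fun a => below (φ a)) := by
      intro v hv
      have h := (mem_filter.1 hv).2
      simp only [P, not_forall] at h
      obtain ⟨a, haA, k, hk⟩ := h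
      rw [mem_image]
      refine ⟨a, Set.mem_toFinset.2 haA, ?_⟩
      by_cases h1 : φ a = Nd.r v k
      · rw [h1]
        rfl
      · by_cases h2 : φ a = Nd.c v k
        · rw [h2]
          rfl
        · exact absurd ⟨h1, h2⟩ hk
    exact (card_le_card hsub).trans card_image_le
  have hsum : Fintype.card {v : MQ m // P v} + Fintype.card {v : MQ m // ¬ P v} = m ^ 2 := by
    rw [← hcard, Fintype.card_subtype_compl]
    have := Fintype.card_subtype_le P
    omega
  omega

end Pool.Agent.Q154.GH
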